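import Mathlib

/-! A connected bireversible Mealy automaton with 4 letters and 12 states whose group is finite of
order greater than `(4!)^12`. -/

set_option autoImplicit false

namespace Pool.Agent.Results.MP_965ec6_al.BigFinite

open Function Equiv Subgroup
open scoped commutatorElement

/-- A Mealy automaton with `p` letters and `q` states. -/
structure Mealy (p q : ℕ) where
  δ : Fin p → Fin q → Fin q
  ρ : Fin q → Fin p → Fin p

/-- The action of a state on words. -/
def act {p q : ℕ} (M : Mealy p q) : Fin q → List (Fin p) → List (Fin p)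
  | _, [] => []
  | x, i :: w => M.ρ x i :: act M (M.δ i x) w

/-- Invertible, reversible, and `x ↦ δ (ρ x ⁻¹ j) x` is a permutation for each letter `j`. -/
def Birev {p q : ℕ} (M : Mealy p q) : Prop :=
  (∀ x, Bijective (M.ρ x)) ∧ (∀ i, Bijective (M.δ i)) ∧
    ∀ (j : Fin p) (pre : Fin q → Fin p), (∀ x, M.ρ x (pre x) = j) →
      Bijective fun x => M.δ (pre x) x

/-- The group of bijections of the set of words generated by the states. -/
def grp {p q : ℕ} (M : Mealy p q) : Subgroup (Perm (List (Fin p))) :=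
  closure {σ | ∃ x, ∀ w, σ w = act M x w}

/-- Every state is reachable from every state. -/
def Connected {p q : ℕ} (M : Mealy p q) : Prop :=
  ∀ x y, ∃ w : List (Fin p), w.foldl (fun s i => M.δ i s) x = y

def D0 : Perm (Fin 12) :=
  ⟨![1, 2, 3, 4, 0, 6, 7, 8, 9, 10, 11, 5], ![4, 0, 1, 2, 3, 11, 5, 6, 7, 8, 9, 10],
    by decide, by decide⟩

def D (i : Fin 4) : Perm (Fin 12) := if i = 3 then swap 0 5 else D0

def r (x : Fin 12) : Perm (Fin 4) := if x = 0 then swap 0 1 else if x = 5 then swap 1 2 else 1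

def M : Mealy 4 12 := ⟨fun i => D i, fun x => r x⟩

def P : Subgroup (Perm (Fin 12) → Perm (Fin 4)) where
  carrier := {f | ∀ h i, D (f h i) = D i}
  one_mem' := fun _ _ => rfl
  mul_mem' := fun {f g} hf hg h i => (hf h _).trans (hg h i)
  inv_mem' := fun {f} hf h i => by
    have := hf h ((f h)⁻¹ i)
    simpa using this.symm

def a (f : Perm (Fin 12) → Perm (Fin 4)) : Perm (Fin 12) → List (Fin 4) → List (Fin 4)
  | _, [] => []
  | h, i :: w => f h i :: a f (D i * h) w

theorem a_mul (f g : P) (w : List (Fin 4)) : ∀ h, a (f * g).1 h w = a f.1 h (a g.1 h w) := by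
  induction w with
  | nil => intro h; rfl
  | cons i w ih => intro h; simp only [a, ih, g.2 h i]; rfl

theorem a_one (w : List (Fin 4)) : ∀ h, a 1 h w = w := by
  induction w with
  | nil => intro h; rfl
  | cons i w ih => intro h; simp only [a, ih]; rfl

def Φ : P →* Perm (List (Fin 4)) :=
  MonoidHom.toHomPerm ⟨⟨fun f => a f.1 1, funext fun w => a_one w 1⟩,
    fun f g => funext fun w => a_mul f g w 1⟩

theorem Dr : ∀ x i, D (r x i) = D i := by
  have : ∀ x i, r x i = 3 ↔ i = 3 := by decide
  intro x i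
  simp only [D, this]

def F (x : Fin 12) : P := ⟨fun h => r (h x), fun _ _ => Dr _ _⟩

theorem a_F (x : Fin 12) (w : List (Fin 4)) : ∀ h, a (F x).1 h w = act M (h x) w := by
  induction w with
  | nil => intro h; rfl
  | cons i w ih => intro h; simp only [a, act, ih]; rfl

theorem grp_eq : grp M = map Φ (closure (Set.range F)) := by
  rw [MonoidHom.map_closure, grp]
  congr 1
  ext σ
  constructor
  · rintro ⟨x, hx⟩
    exact ⟨_, ⟨x, rfl⟩, Equiv.ext fun w => (a_F x w 1).trans (hx w).symm⟩
  · rintro ⟨_, ⟨x, rfl⟩, rfl⟩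
    exact ⟨x, fun w => a_F x w 1⟩

def Ψ : P →* (Fin 35 → Perm (Fin 4)) where
  toFun f k := f.1 (D0 ^ k.1)
  map_one' := rfl
  map_mul' _ _ := rfl

theorem a_last (f : Perm (Fin 12) → Perm (Fin 4)) (i : Fin 4) (k : ℕ) :
    ∀ h, (a f h (List.replicate k 0 ++ [i])).getLast? = some (f (D0 ^ k * h) i) := by
  induction k with
  | zero => intro h; simp [a]
  | succ k ih =>
    intro h
    have := ih (D0 * h)
    rw [← mul_assoc, ← pow_succ] at this
    rw [List.replicate_succ, List.cons_append, a, List.getLast?_cons]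
    change some ((a f (D0 * h) _).getLast?.getD _) = _
    rw [this]; rfl

def c : Perm (Fin 4) := ⁅swap (0 : Fin 4) 1, swap (1 : Fin 4) 2⁆

theorem comm : ∀ t k : Fin 35, ∀ i, ⁅r ((D0 ^ k.1) ⟨4 * t.1 % 5, by omega⟩),
    r ((D0 ^ k.1) ⟨5 + 6 * t.1 % 7, by omega⟩)⁆ i = (if k = t then c else 1) i := by
  decide +kernel

theorem result : ∃ M : Mealy 4 12, Birev M ∧ Connected M ∧ Finite (grp M) ∧
    (Nat.factorial 4) ^ 12 < Nat.card (grp M) := by
  have hfin : Finite (grp M) := by
    rw [grp_eq]
    exact Set.Finite.subset (Set.finite_range Φ) (by rintro _ ⟨f, _, rfl⟩; exact ⟨f, rfl⟩)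
  refine ⟨M, ⟨fun x => (r x).bijective, fun i => (D i).bijective, fun j pre h => ?_⟩, ?_, hfin, ?_⟩
  · have : (fun x => M.δ (pre x) x) = D j := funext fun x => by
      rw [← h x]; exact (congrArg (fun s : Perm (Fin 12) => s x) (Dr x _)).symm
    rw [this]; exact (D j).bijective
  · have : ∀ x y : Fin 12, ∃ m n : Fin 8, ∃ l : Fin 2, (List.replicate m 0 ++ List.replicate l 3 ++
        List.replicate n 0 : List (Fin 4)).foldl (fun s i => M.δ i s) x = y := by decide +kernel
    intro x y
    obtain ⟨m, n, l, h⟩ := this x y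
    exact ⟨_, h⟩
  have hpi : Subgroup.pi Set.univ (fun _ : Fin 35 => zpowers c) ≤
      map Ψ (closure (Set.range F)) := by
    rw [pi_le_iff]
    intro t
    rw [MonoidHom.map_zpowers, zpowers_le]
    refine ⟨⁅F ⟨4 * t.1 % 5, by omega⟩, F ⟨5 + 6 * t.1 % 7, by omega⟩⁆, ?_, ?_⟩
    · have := fun x => subset_closure (k := Set.range F) ⟨x, rfl⟩
      exact mul_mem (mul_mem (mul_mem (this _) (this _)) (inv_mem (this _))) (inv_mem (this _))
    · funext k
      rw [MonoidHom.mulSingle_apply, Pi.mulSingle_apply]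
      exact Equiv.ext (comm t k)
  have hex : ∀ e : Fin 35 → Fin 3, ∃ f ∈ closure (Set.range F), Ψ f = fun k => c ^ (e k).1 :=
    fun e => hpi fun k _ => ⟨(e k).1, by simp⟩
  choose f hf1 hf2 using hex
  have hinj : Injective fun e => (⟨Φ (f e), by rw [grp_eq]; exact ⟨_, hf1 e, rfl⟩⟩ : grp M) := by
    intro e e' h
    have h1 : Φ (f e) = Φ (f e') := congrArg Subtype.val h
    funext k
    have h2 : ∀ i, (c ^ (e k).1) i = (c ^ (e' k).1) i := fun i => by
      have h3 : a (f e).1 1 (List.replicate k 0 ++ [i]) =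
          a (f e').1 1 (List.replicate k 0 ++ [i]) := congrArg (fun s : Perm _ => s _) h1
      have h4 := congrArg List.getLast? h3
      rw [a_last, a_last, mul_one] at h4
      rw [← congrFun (hf2 e) k, ← congrFun (hf2 e') k]
      exact Option.some.inj h4
    exact (by decide : ∀ u v : Fin 3, (∀ i, (c ^ u.1) i = (c ^ v.1) i) → u = v) _ _ h2
  refine lt_of_lt_of_le ?_ (Nat.card_le_card_of_injective _ hinj)
  simp [Nat.factorial]

end Pool.Agent.Results.MP_965ec6_al.BigFinite
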